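import Pool.Agent.Q9.FJT.Bool
import Pool.Agent.Q30.FJ.Emb3

/-!
# Mitoses: one step of the embedding in a mitotic group

`W A` is the group of the locally constant functions from a Cantor set `T` to the group `A`,
extended by a free group of rank two that acts through two homeomorphisms of `T`.
-/

set_option autoImplicit false

namespace Q184.Mit

open Pool.Agent.Y110.FJ (ClosedE)
open Pool.Agent.Y462.SS (Closed)
open Q30.FJ (TorsionFree)

/-! ### homeomorphisms of a Cantor set -/

/-- the Cantor set -/
abbrev K := ℕ → Bool

/-- the Cantor set consists of two copies of itself -/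
def splitEquiv : K ⊕ K ≃ K where
  toFun := Sum.elim (fun x n => Nat.casesOn n false x) (fun x n => Nat.casesOn n true x)
  invFun y := if y 0 then Sum.inr (fun n => y (n + 1)) else Sum.inl (fun n => y (n + 1))
  left_inv := by
    rintro (x | x)
    · rfl
    · rfl
  right_inv := by
    intro y
    by_cases h : y 0 = true
    · simp only [if_pos h]
      funext n
      cases n with
      | zero => exact h.symm
      | succ n => rfl
    · simp only [if_neg h]
      funext n
      cases n with
      | zero =>
        show false = y 0
        simpa using h
      | succ n => rfl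

theorem split_continuous : Continuous splitEquiv := by
  refine Continuous.sumElim ?_ ?_
  · refine continuous_pi fun n => ?_
    cases n with
    | zero => exact continuous_const
    | succ n => exact continuous_apply n
  · refine continuous_pi fun n => ?_
    cases n with
    | zero => exact continuous_const
    | succ n => exact continuous_apply n

/-- the Cantor set consists of two copies of itself -/
def split : K ⊕ K ≃ₜ K := Continuous.homeoOfEquivCompactToT2 split_continuous

/-- three copies of the Cantor set -/
abbrev T := (K ⊕ K) ⊕ K

/-- the homeomorphism that exchanges the first two copies -/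
def sH : T ≃ₜ T := (Homeomorph.sumComm K K).sumCongr (Homeomorph.refl K)

/-- a homeomorphism that takes the first copy to the first two copies -/
def dH : T ≃ₜ T := (Homeomorph.sumAssoc K K K).trans (split.symm.sumCongr split)

/-! ### the group -/

section W

variable (A : Type) [Group A]

/-- the action of the homeomorphisms on the locally constant functions -/
def act : (T ≃ₜ T) →* MulAut (LocallyConstant T A) where
  toFun σ :=
    { toFun := fun f => f.comap (σ.symm : C(T, T))
      invFun := fun f => f.comap (σ : C(T, T))
      left_inv := by
        intro f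
        ext t
        exact congrArg f (σ.symm_apply_apply t)
      right_inv := by
        intro f
        ext t
        exact congrArg f (σ.apply_symm_apply t)
      map_mul' := fun f g => rfl }
  map_one' := rfl
  map_mul' σ τ := rfl

/-- the homomorphism from the free group to the group of homeomorphisms -/
def rho : FreeGroup Bool →* (T ≃ₜ T) := FreeGroup.lift fun b => if b then sH else dH

/-- the group `W A` -/
abbrev W := LocallyConstant T A ⋊[(act A).comp rho] FreeGroup Bool

variable {A}

/-- the projection to the three copies -/
def piece : C(T, Fin 3) where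
  toFun := Sum.elim (Sum.elim (fun _ => 0) fun _ => 1) fun _ => 2
  continuous_toFun :=
    (continuous_const.sumElim continuous_const).sumElim continuous_const

/-- the function with value `g` on the first copy and `1` elsewhere -/
def ind (g : A) : LocallyConstant T A :=
  LocallyConstant.comap piece ⟨fun i => if i = 0 then g else 1, IsLocallyConstant.of_discrete _⟩

@[simp] theorem ind_ll (g : A) (x : K) : ind g (Sum.inl (Sum.inl x)) = g := rfl
@[simp] theorem ind_lr (g : A) (x : K) : ind g (Sum.inl (Sum.inr x)) = 1 := rfl
@[simp] theorem ind_r (g : A) (x : K) : ind g (Sum.inr x : T) = 1 := rfl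

/-- the embedding in `W A` -/
def emb : A →* W A where
  toFun g := ⟨ind g, 1⟩
  map_one' := by
    refine SemidirectProduct.ext ?_ rfl
    ext t
    rcases t with ((t | t) | t) <;> rfl
  map_mul' g h := by
    refine SemidirectProduct.ext ?_ rfl
    ext t
    rcases t with ((t | t) | t)
    · rfl
    · show (1 : A) = 1 * 1
      rw [mul_one]
    · show (1 : A) = 1 * 1
      rw [mul_one]

theorem emb_injective : Function.Injective (emb : A → W A) := by
  intro g h hgh
  have h1 := congrArg SemidirectProduct.left hgh
  have h2 := congrArg (fun f : LocallyConstant T A => f (Sum.inl (Sum.inl fun _ => false))) h1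
  exact h2

/-- the two elements -/
def sE : W A := SemidirectProduct.inr (FreeGroup.of true)
def dE : W A := SemidirectProduct.inr (FreeGroup.of false)

theorem conj_inr (γ : FreeGroup Bool) (f : LocallyConstant T A) :
    (SemidirectProduct.inr γ : W A) * ⟨f, 1⟩ * (SemidirectProduct.inr γ)⁻¹ =
      ⟨act A (rho γ) f, 1⟩ := by
  have h := SemidirectProduct.inl_aut (φ := (act A).comp rho) γ f
  rw [map_inv] at h
  exact h.symm

theorem s_conj (g : A) : (sE : W A) * emb g * sE⁻¹ = ⟨act A sH (ind g), 1⟩ := by
  have h := conj_inr (FreeGroup.of true) (ind g)
  have h1 : rho (FreeGroup.of true) = sH := by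
    unfold rho
    rw [FreeGroup.lift_apply_of, if_pos rfl]
  rw [h1] at h
  exact h

theorem d_conj (g : A) : (dE : W A) * emb g * dE⁻¹ = ⟨act A dH (ind g), 1⟩ := by
  have h := conj_inr (FreeGroup.of false) (ind g)
  have h1 : rho (FreeGroup.of false) = dH := by
    unfold rho
    rw [FreeGroup.lift_apply_of, if_neg Bool.false_ne_true]
  rw [h1] at h
  exact h

theorem mk_mul (f f' : LocallyConstant T A) : (⟨f, 1⟩ : W A) * ⟨f', 1⟩ = ⟨f * f', 1⟩ := by
  refine SemidirectProduct.ext ?_ rfl
  rfl

theorem comm (x y : A) : emb x * ((sE : W A) * emb y * sE⁻¹) = (sE * emb y * sE⁻¹) * emb x := by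
  rw [s_conj]
  show (⟨ind x, 1⟩ : W A) * _ = _ * ⟨ind x, 1⟩
  rw [mk_mul, mk_mul]
  congr 1
  ext t
  rcases t with ((t | t) | t)
  · show x * 1 = 1 * x
    rw [mul_one, one_mul]
  · show 1 * y = y * 1
    rw [mul_one, one_mul]
  · rfl

theorem diag (x : A) : (dE : W A) * emb x * dE⁻¹ = emb x * (sE * emb x * sE⁻¹) := by
  rw [s_conj, d_conj]
  show _ = (⟨ind x, 1⟩ : W A) * _
  rw [mk_mul]
  congr 1
  ext t
  rcases t with ((t | t) | t)
  · show x = x * 1
    rw [mul_one]
  · show x = 1 * x
    rw [one_mul]
  · show ind x (dH.symm (Sum.inr t)) = 1 * 1
    rw [mul_one]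
    show ind x ((Homeomorph.sumAssoc K K K).symm (Sum.inr (split.symm t))) = 1
    rcases split.symm t with u | u
    · rfl
    · rfl

end W

end Q184.Mit
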