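import Pool.Agent.Q184.Mit.Mem

/-!
# Mitoses: the union of the iterated mitoses
-/

set_option autoImplicit false

namespace Q184.Mit

open Pool.Agent.Y110.FJ (ClosedE)
open Pool.Agent.Y462.SS (Closed)
open Q30.FJ (TorsionFree)

/-- for every finitely generated subgroup `H` of `M` there are `s`, `d` in `M` such that `s H s⁻¹`
commutes with `H` and `d x d⁻¹ = x * (s x s⁻¹)` for `x` in `H` -/
def Mitotic (M : Type) [Group M] : Prop :=
  ∀ H : Subgroup M, H.FG → ∃ s d : M,
    (∀ x ∈ H, ∀ y ∈ H, x * (s * y * s⁻¹) = (s * y * s⁻¹) * x) ∧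
    ∀ x ∈ H, d * x * d⁻¹ = x * (s * x * s⁻¹)

/-- a group -/
structure Gp where
  G : Type
  [grp : Group G]

attribute [instance] Gp.grp

/-- the iterated groups -/
def Tw (A : Gp) : ℕ → Gp
  | 0 => A
  | n + 1 => ⟨W (Tw A n).G⟩

/-- one step -/
def stp (A : Gp) (n : ℕ) : (Tw A n).G →* (Tw A (n + 1)).G := (emb : (Tw A n).G →* W (Tw A n).G)

theorem stp_injective (A : Gp) (n : ℕ) : Function.Injective (stp A n) := emb_injective

theorem stp_mit (A : Gp) (n : ℕ) : ∃ s d : (Tw A (n + 1)).G,
    (∀ x y, stp A n x * (s * stp A n y * s⁻¹) = (s * stp A n y * s⁻¹) * stp A n x) ∧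
    ∀ x, d * stp A n x * d⁻¹ = stp A n x * (s * stp A n x * s⁻¹) :=
  ⟨(sE : W (Tw A n).G), (dE : W (Tw A n).G), comm, diag⟩

/-- The transition maps. -/
def tr (A : Gp) (i j : ℕ) (h : i ≤ j) : (Tw A i).G →* (Tw A j).G :=
  Nat.leRecOn (C := fun k => (Tw A i).G →* (Tw A k).G) h (fun {k} φ => (stp A k).comp φ)
    (MonoidHom.id _)

theorem tr_self (A : Gp) (i : ℕ) : tr A i i le_rfl = MonoidHom.id _ := by
  unfold tr
  rw [Nat.leRecOn_self]

theorem tr_succ (A : Gp) (i j : ℕ) (h : i ≤ j) :
    tr A i (j + 1) (h.trans (Nat.le_succ j)) = (stp A j).comp (tr A i j h) := by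
  unfold tr
  rw [Nat.leRecOn_succ h]

theorem tr_tr (A : Gp) (i j k : ℕ) (h : i ≤ j) (h' : j ≤ k) (x : (Tw A i).G) :
    tr A j k h' (tr A i j h x) = tr A i k (h.trans h') x := by
  induction k, h' using Nat.le_induction with
  | base => rw [tr_self]; rfl
  | succ k hk ih =>
    rw [tr_succ A j k hk, tr_succ A i k (h.trans hk), MonoidHom.comp_apply,
      MonoidHom.comp_apply, ih]

theorem tr_inj (A : Gp) (i j : ℕ) (h : i ≤ j) : Function.Injective (tr A i j h) := by
  induction j, h using Nat.le_induction with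
  | base =>
    rw [tr_self]
    exact fun _ _ h => h
  | succ j hj ih =>
    rw [tr_succ A i j hj]
    exact (stp_injective A j).comp ih

instance trDS (A : Gp) :
    DirectedSystem (fun i => (Tw A i).G) (fun i j h => (tr A i j h : _ → _)) where
  map_self := by
    intro i x
    rw [tr_self]
    rfl
  map_map := by
    intro k j i hij hjk x
    exact tr_tr A i j k hij hjk x

/-- **the mitotic group** -/
theorem exists_mitotic (G : Type) [Group G] :
    ∃ (M : Type) (_ : Group M) (ι : G →* M), Function.Injective ι ∧ Mitotic M ∧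
      (Countable G → Countable M) ∧ (TorsionFree G → TorsionFree M) ∧
      ∀ C : ∀ (G : Type) [Group G], Prop, ClosedE C → C G → C M := by
  classical
  let A : Gp := ⟨G⟩
  let Γ := DirectLimit (fun i => (Tw A i).G) (fun i j h => tr A i j h)
  have hone : ∀ n, (⟦⟨n, 1⟩⟧ : Γ) = 1 := fun n => (DirectLimit.one_def n).symm
  let j0 : ∀ n, (Tw A n).G →* Γ := fun n =>
    { toFun := fun g => ⟦⟨n, g⟩⟧
      map_one' := hone n
      map_mul' := fun g h => (DirectLimit.mul_def (f := fun i j h => tr A i j h) n g h).symm }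
  have hj0 : ∀ n, Function.Injective (j0 n) := by
    intro n
    exact DirectLimit.mk_injective (fun i j h => tr A i j h) (fun i k h => tr_inj A i k h) n
  have htr : ∀ i k (h : i ≤ k) (g : (Tw A i).G), j0 k (tr A i k h g) = j0 i g := by
    intro i k h g
    exact DirectLimit.mk_apply (f := fun i j h => tr A i j h) i k g h
  have hex : ∀ x : Γ, ∃ n g, j0 n g = x := by
    intro x
    obtain ⟨i, g, hg⟩ := DirectLimit.exists_eq_mk _ x
    exact ⟨i, g, hg.symm⟩
  have hst : ∀ n (g : (Tw A n).G), j0 (n + 1) (stp A n g) = j0 n g := by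
    intro n g
    rw [← htr n (n + 1) (Nat.le_succ n) g]
    congr 1
    have h1 := tr_succ A n n le_rfl
    rw [tr_self] at h1
    rw [h1]
    rfl
  have hfg : ∀ H : Subgroup Γ, H.FG → ∃ n, H ≤ (j0 n).range := by
    rintro H ⟨S, rfl⟩
    have h1 : ∀ x : Γ, ∃ n, x ∈ (j0 n).range := fun x => by
      obtain ⟨n, g, hg⟩ := hex x
      exact ⟨n, g, hg⟩
    choose N hN using h1
    have hmono : ∀ i k, i ≤ k → (j0 i).range ≤ (j0 k).range := by
      rintro i k h _ ⟨g, rfl⟩
      exact ⟨tr A i k h g, htr i k h g⟩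
    refine ⟨S.sup N, ?_⟩
    rw [Subgroup.closure_le]
    intro x hx
    exact hmono _ _ (Finset.le_sup hx) (hN x)
  refine ⟨Γ, inferInstance, j0 0, hj0 0, ?_, ?_, ?_, ?_⟩
  · intro H hH
    obtain ⟨n, hn⟩ := hfg H hH
    obtain ⟨s, d, h1, h2⟩ := stp_mit A n
    refine ⟨j0 (n + 1) s, j0 (n + 1) d, ?_, ?_⟩
    · intro x hx y hy
      obtain ⟨a, rfl⟩ := hn hx
      obtain ⟨b, rfl⟩ := hn hy
      rw [← hst n a, ← hst n b, ← map_inv, ← map_mul, ← map_mul, ← map_mul, h1, map_mul]
    · intro x hx
      obtain ⟨a, rfl⟩ := hn hx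
      rw [← hst n a, ← map_inv, ← map_inv, ← map_mul, ← map_mul, ← map_mul, ← map_mul, ← map_mul, h2]
  · intro hG
    have h1 : ∀ n, Countable (Tw A n).G := by
      intro n
      induction n with
      | zero => exact hG
      | succ n ih => exact w_countable
    refine Function.Surjective.countable (f := fun p : Σ n, (Tw A n).G => j0 p.1 p.2) ?_
    intro x
    obtain ⟨n, g, hg⟩ := hex x
    exact ⟨⟨n, g⟩, hg⟩
  · intro hG
    have h1 : ∀ n, TorsionFree (Tw A n).G := by
      intro n
      induction n with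
      | zero => exact hG
      | succ n ih => exact w_tf ih
    intro x k hk hx
    obtain ⟨n, g, rfl⟩ := hex x
    rw [← map_pow] at hx
    have h2 : g ^ k = 1 := hj0 n (hx.trans (map_one _).symm)
    rw [h1 n g k hk h2, map_one]
  · intro C hC hG
    have h1 : ∀ n, C (Tw A n).G := by
      intro n
      induction n with
      | zero => exact hG
      | succ n ih => exact w_mem hC ih
    refine hC.base.colim ℕ (fun i j => ⟨max i j, le_max_left i j, le_max_right i j⟩)
      (fun n => (Tw A n).G) (fun i j h => tr A i j h) Γ j0 ?_ ?_ ?_ ?_ ?_ h1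
    · intro i h x
      rw [tr_self]
      rfl
    · intro i j k h h' x
      exact tr_tr A i j k h h' x
    · intro i j h x
      exact htr i j h x
    · intro y
      exact hex y
    · intro i x hx
      refine ⟨i, le_rfl, ?_⟩
      have h2 : x = 1 := hj0 i (hx.trans (map_one _).symm)
      rw [h2, map_one]

end Q184.Mit
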