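import Pool.Agent.Q184.Mit.Base

/-!
# Mitoses: closure properties
-/

set_option autoImplicit false

namespace Q184.Mit

open Pool.Agent.Y110.FJ (ClosedE)
open Pool.Agent.Y462.SS (Closed)
open Q30.FJ (TorsionFree)

variable {A : Type} [Group A]

theorem ker_left {x : W A} (hx : x ∈ (SemidirectProduct.rightHom : W A →* FreeGroup Bool).ker) :
    x.right = 1 := hx

/-- `W A` is in the class -/
theorem w_mem {C : ∀ (G : Type) [Group G], Prop} (hC : ClosedE C) (hA : C A) : C (W A) := by
  let N : Subgroup (W A) := (SemidirectProduct.rightHom : W A →* FreeGroup Bool).ker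
  let ι : N →* LocallyConstant T A := MonoidHom.mk' (fun n => (n : W A).left) (by
    rintro ⟨⟨f, γ⟩, hf⟩ ⟨⟨g, δ⟩, hg⟩
    have h1 : γ = 1 := hf
    subst h1
    rfl)
  have hι : Function.Injective ι := by
    rintro ⟨⟨f, γ⟩, hf⟩ ⟨⟨g, δ⟩, hg⟩ h
    have h1 : γ = 1 := hf
    have h2 : δ = 1 := hg
    subst h1 h2
    have h3 : f = g := h
    subst h3
    rfl
  refine Q9.FJT.lc_mem hC (D := C) ⟨hC.base.of_injective, hC.ext⟩ hA N ι hι ?_ ?_
  · rintro ⟨f, γ⟩
    refine ⟨(rho γ).symm, f, ?_⟩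
    rintro ⟨⟨h, δ⟩, hh⟩ ⟨n', hn'⟩ he
    have h1 : δ = 1 := hh
    subst h1
    have h2 : n' = ⟨f, γ⟩ * ⟨h, 1⟩ * (⟨f, γ⟩ : W A)⁻¹ := he
    have h3 : (⟨f, γ⟩ : W A) = ⟨f, 1⟩ * SemidirectProduct.inr γ := by
      refine SemidirectProduct.ext ?_ ?_
      · show f = f * _
        rw [map_one]
        show f = f * 1
        rw [mul_one]
      · show γ = 1 * γ
        rw [one_mul]
    have h4 : n' = ⟨f * act A (rho γ) h * f⁻¹, 1⟩ := by
      have h5 : (⟨f, 1⟩ : W A)⁻¹ = ⟨f⁻¹, 1⟩ := by
        rw [inv_eq_iff_mul_eq_one, mk_mul, mul_inv_cancel]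
        rfl
      calc n' = ⟨f, 1⟩ * (SemidirectProduct.inr γ * ⟨h, 1⟩ * (SemidirectProduct.inr γ)⁻¹) *
            (⟨f, 1⟩ : W A)⁻¹ := by
              rw [h2, h3]
              group
        _ = _ := by rw [conj_inr, h5, mk_mul, mk_mul]
    show n'.left = f * h.comap ((rho γ).symm : C(T, T)) * f⁻¹
    rw [h4]
    rfl
  · refine hC.base.of_injective _ (FreeGroup Bool)
      (QuotientGroup.kerLift (SemidirectProduct.rightHom : W A →* FreeGroup Bool))
      (QuotientGroup.kerLift_injective _) (Pool.Agent.Y179.SS.free_fin hC.base Bool)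

/-- `W A` is torsion-free if `A` is -/
theorem w_tf (hA : TorsionFree A) : TorsionFree (W A) := by
  rintro ⟨f, γ⟩ n hn h
  have h1 : γ ^ n = 1 := by
    have h2 := congrArg (SemidirectProduct.rightHom : W A →* FreeGroup Bool) h
    rw [map_pow, map_one] at h2
    exact h2
  have h3 : γ = 1 := by
    by_contra hne
    exact hne ((pow_eq_one_iff_left hn.ne').1 h1)
  subst h3
  have h4 : ∀ k : ℕ, (⟨f, 1⟩ : W A) ^ k = ⟨f ^ k, 1⟩ := by
    intro k
    induction k with
    | zero =>
      rw [pow_zero, pow_zero]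
      rfl
    | succ k ih => rw [pow_succ, ih, mk_mul, ← pow_succ]
  rw [h4] at h
  have h5 : f ^ n = 1 := congrArg SemidirectProduct.left h
  have h6 : f = 1 := by
    ext t
    exact hA (f t) n hn (congrArg (fun g : LocallyConstant T A => g t) h5)
  subst h6
  rfl

instance lc_countable (B : Type) [Countable B] : Countable (LocallyConstant T B) := by
  classical
  have h1 : Countable (TopologicalSpace.Clopens T) :=
    TopologicalSpace.Clopens.countable_iff_secondCountable.2 inferInstance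
  let Φ : LocallyConstant T B → Finset (TopologicalSpace.Clopens T × B) := fun f =>
    f.range_finite.toFinset.image fun b => (⟨f ⁻¹' {b}, f.isLocallyConstant.isClopen_fiber b⟩, b)
  refine Function.Injective.countable (f := Φ) ?_
  intro f g h
  ext t
  have h2 : ((⟨f ⁻¹' {f t}, f.isLocallyConstant.isClopen_fiber (f t)⟩, f t) :
      TopologicalSpace.Clopens T × B) ∈ Φ f := by
    refine Finset.mem_image.2 ⟨f t, ?_, rfl⟩
    rw [Set.Finite.mem_toFinset]
    exact ⟨t, rfl⟩
  rw [h] at h2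
  obtain ⟨b, -, hb⟩ := Finset.mem_image.1 h2
  have h3 : b = f t := congrArg Prod.snd hb
  subst h3
  have h4 : g ⁻¹' {f t} = f ⁻¹' {f t} := congrArg (fun U => (U.1 : Set T)) hb
  have h5 : t ∈ f ⁻¹' {f t} := rfl
  rw [← h4] at h5
  exact h5.symm

theorem w_countable [Countable A] : Countable (W A) := by
  refine Function.Injective.countable (f := fun x : W A => (x.left, x.right)) ?_
  rintro ⟨f, γ⟩ ⟨g, δ⟩ h
  have h1 : f = g := congrArg Prod.fst h
  have h2 : γ = δ := congrArg Prod.snd h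
  rw [h1, h2]

end Q184.Mit
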